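import Pool.Agent.N557.BP.Stm
import Pool.Agent.TH103.BL.Vtx

set_option autoImplicit false

/-!
BP/V3: at a vertex with an irrational angle the values of the slices are constant.
-/

namespace Pool.Agent.N738.BP

open Complex Set MeasureTheory Filter Topology Pool.Agent.W780.PG Pool.Agent.W780.BB
  Pool.Agent.TH103.BL Pool.Agent.N557.BP

open scoped Real ComplexConjugate

theorem const_of_laws {n : ℕ} {p : Fin (n + 3) → ℂ} (hp : IsConvexPolygon p)
    {i : Fin (n + 3)} (hirr : Irrational (ang p i / π)) {g : ℝ → ℝ} (hg : Measurable g)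
    (hper : ∀ θ, g (θ + 2 * π) = g θ)
    (h1 : ∀ᵐ θ : ℝ, g (2 * tau p i - θ) = g θ)
    (h2 : ∀ᵐ θ : ℝ, g (2 * tau p (i - 1) - θ) = g θ) :
    ∃ c : ℝ, ∀ᵐ θ : ℝ, g θ = c := by
  obtain ⟨k, hk⟩ := Pool.Agent.W337.BB.tau_th n p hp i
  have hirr2 : Irrational ((tau p i - tau p (i - 1)) / π) := by
    rw [hk]
    have : (π - ang p i + 2 * k * π) / π = ((1 + 2 * k : ℤ) : ℝ) - ang p i / π := by
      have := Real.pi_ne_zero
      field_simp
      push_cast
      ring
    rw [this]
    exact hirr.intCast_sub _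
  have h3 := Filter.exists_eventuallyEq_const_of_forall_separating
    (l := ae (volume : Measure ℝ)) (f := g) (MeasurableSet : Set ℝ → Prop) ?_
  · obtain ⟨c, hc⟩ := h3
    exact ⟨c, hc⟩
  · intro U hU
    rcases Pool.Agent.W363.BB.rot (g ⁻¹' U) (tau p i) (tau p (i - 1)) (hg hU)
      (fun θ => by rw [mem_preimage, mem_preimage, hper])
      (by filter_upwards [h1] with θ hθ; rw [mem_preimage, mem_preimage, hθ])
      (by filter_upwards [h2] with θ hθ; rw [mem_preimage, mem_preimage, hθ]) hirr2 with h | h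
    · right
      exact measure_eq_zero_iff_ae_notMem.1 h
    · left
      have := measure_eq_zero_iff_ae_notMem.1 h
      filter_upwards [this] with θ hθ
      simpa using hθ

theorem t_v3 : S_V1 → S_V2 → S_V3 := by
  intro hV1 hV2 n p hp hirr f hf hI hC
  have key : ∀ i : Fin (n + 3), ∃ c : ℝ, ∀ᵐ θ : ℝ, ∀ G : ℂ → ℝ, Sl p f θ G → G (p i) = c := by
    intro i
    obtain ⟨g, hg, hper, hG⟩ := hV1 n p hp f hf hI hC i
    have h1 := hV2 n p hp f hf hI hC i i (Or.inl rfl) g hG
    have h2 := hV2 n p hp f hf hI hC i (i - 1) (Or.inr (by rw [sub_add_cancel])) g hG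
    obtain ⟨c, hc⟩ := const_of_laws hp (hirr i) hg hper h1 h2
    refine ⟨c, ?_⟩
    filter_upwards [hG, hc] with θ h3 h4 G hS
    rw [h3 G hS, h4]
  choose c hc using key
  refine ⟨c, ?_⟩
  have h5 := ae_all_iff.2 hc
  filter_upwards [h5] with θ h6 G hS i
  exact h6 i G hS

end Pool.Agent.N738.BP
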